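import Pool.Agent.H516.PCF.All

/-!
# Dependence of the fibre product on the base point (task CMP of helper516)
-/

set_option autoImplicit false

namespace Pool.Agent.H549.PCF

open Polynomial Pool.Agent.H516.PCF

theorem gp_eval {k : Type} [Field k] (d : ℕ) (P Q : k[X]) (i : ℕ) (t c : k) :
    (gp d P Q i t).eval c = (pn d P Q i).eval c - t * (qn d P Q i).eval c := by
  simp [gp]

/-- the polynomials of the fibres at the points of `A` -/
theorem gp_le {k : Type} [Field k] {d : ℕ} {P Q : k[X]} {A : Set k} (hN : Nrm d P Q)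
    (hA : Post P Q A) (hORB : S_ORB) (ν : k →*₀ ℝ) (hν : ∀ x, 0 ≤ ν x) {B : ℝ} (hB : 1 ≤ B)
    {t t' : k} (ht : ∀ x ∈ A, ν (x - t) ≤ B * ν (x - t')) (i : ℕ) {c : k} (hc : c ∈ A) :
    ν ((gp d P Q i t).eval c) ≤ B * ν ((gp d P Q i t').eval c) := by
  by_cases h : (qn d P Q i).eval c = 0
  · have h1 : ∀ s : k, (gp d P Q i s).eval c = (pn d P Q i).eval c := by
      intro s
      rw [gp_eval, h, mul_zero, sub_zero]
    rw [h1, h1]
    have := hν ((pn d P Q i).eval c)
    nlinarith
  · have h1 : ∀ s : k, (gp d P Q i s).eval c = (qn d P Q i).eval c * (fn d P Q i c - s) := by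
      intro s
      rw [gp_eval, fn]
      field_simp
    have h2 := ((hORB k d P Q A hN hA i c h).1 hc)
    rw [h1, h1, map_mul, map_mul]
    have h3 := mul_le_mul_of_nonneg_left (ht _ h2) (hν ((qn d P Q i).eval c))
    linarith

/-- the poles -/
theorem qn_pole {k : Type} [Field k] {d : ℕ} {P Q : k[X]} (hN : Nrm d P Q) (hEVAL : S_EVAL)
    {q : k} (hq : Q.eval q = 0) (i : ℕ) : (qn d P Q (i + 1)).eval q = 0 := by
  induction i with
  | zero =>
    have h0 : (qn d P Q 0).eval q = 1 := by simp [qn, it]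
    have h1 : fn d P Q 0 q = q := by simp [fn, qn, pn, it]
    have h2 := ((hEVAL k d P Q hN 0 q).1 (by rw [h0]; exact one_ne_zero)).2.1
    rw [h2, h1, hq, mul_zero]
  | succ i ih => exact ((hEVAL k d P Q hN (i + 1) q).2 ih).1

/-- the exponents -/
theorem expo (d n : ℕ) (hd : 2 ≤ d) :
    (2 * d - 2) * ∑ i ∈ Finset.range n, d ^ (n - 1 - i) ≤ 2 * d ^ n := by
  rw [Finset.sum_range_reflect (fun i => d ^ i) n]
  obtain ⟨e, rfl⟩ : ∃ e, d = e + 2 := ⟨d - 2, by omega⟩
  have h : ∀ n : ℕ, (2 * (e + 2) - 2) * ∑ i ∈ Finset.range n, (e + 2) ^ i + 2 = 2 * (e + 2) ^ n := by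
    intro n
    have e1 : 2 * (e + 2) - 2 = 2 * (e + 1) := by omega
    rw [e1]
    induction n with
    | zero => simp
    | succ n ih =>
      rw [Finset.sum_range_succ, pow_succ]
      calc 2 * (e + 1) * (∑ i ∈ Finset.range n, (e + 2) ^ i + (e + 2) ^ n) + 2
          = (2 * (e + 1) * ∑ i ∈ Finset.range n, (e + 2) ^ i + 2) + 2 * (e + 1) * (e + 2) ^ n := by ring
        _ = 2 * (e + 2) ^ n + 2 * (e + 1) * (e + 2) ^ n := by rw [ih]
        _ = 2 * ((e + 2) ^ n * (e + 2)) := by ring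
  have := h n
  omega

theorem cmp (hEVAL : S_EVAL) (hORB : S_ORB) (hWDEG : S_WDEG) : S_CMP := by
  intro k _ _ d P Q A hN hA ν hν B hB t t' ht n
  have hB0 : 0 ≤ B := by linarith
  have hd := hN.two_le
  have hwd := hWDEG k P Q hN.Q0 (by rw [hN.degP]; exact hN.degQ)
  -- the products over the zeros of the Wronskian
  have hcf : ∀ i, ν (cf d P Q i t (wr P Q)) ≤ B ^ (2 * d - 2) * ν (cf d P Q i t' (wr P Q)) := by
    intro i
    have hcard : (wr P Q).roots.card ≤ 2 * d - 2 := by
      have h1 := (wr P Q).card_roots' 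
      have h2 := hwd.2.1
      have h3 := hN.degQ
      rw [hN.degP] at h2
      omega
    have hmap : ∀ s : k, ν (((wr P Q).roots.map fun c => (-1) ^ (d ^ i) * (gp d P Q i s).eval c /
        P.leadingCoeff ^ geom d i).prod) = ((wr P Q).roots.map fun c =>
          ν ((-1) ^ (d ^ i) * (gp d P Q i s).eval c / P.leadingCoeff ^ geom d i)).prod := by
      intro s
      rw [map_multiset_prod, Multiset.map_map]
      rfl
    have hle : ((wr P Q).roots.map fun c =>
          ν ((-1) ^ (d ^ i) * (gp d P Q i t).eval c / P.leadingCoeff ^ geom d i)).prod ≤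
        ((wr P Q).roots.map fun c => B *
          ν ((-1) ^ (d ^ i) * (gp d P Q i t').eval c / P.leadingCoeff ^ geom d i)).prod := by
      refine Multiset.prod_map_le_prod_map₀ _ _ (fun c _ => hν _) (fun c hc => ?_)
      have hcA : c ∈ A := hA.crit c ((mem_roots hwd.1).1 hc)
      have h1 := gp_le hN hA hORB ν hν hB ht i hcA
      rw [map_div₀, map_div₀, map_mul, map_mul]
      have h2 := hν ((-1) ^ (d ^ i))
      have h3 := hν (P.leadingCoeff ^ geom d i)
      calc ν ((-1) ^ d ^ i) * ν (eval c (gp d P Q i t)) / ν (P.leadingCoeff ^ geom d i)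
          ≤ ν ((-1) ^ d ^ i) * (B * ν (eval c (gp d P Q i t'))) / ν (P.leadingCoeff ^ geom d i) := by
            gcongr
        _ = _ := by ring
    have hprod : ((wr P Q).roots.map fun c => B *
          ν ((-1) ^ (d ^ i) * (gp d P Q i t').eval c / P.leadingCoeff ^ geom d i)).prod =
        B ^ (wr P Q).roots.card * ((wr P Q).roots.map fun c =>
          ν ((-1) ^ (d ^ i) * (gp d P Q i t').eval c / P.leadingCoeff ^ geom d i)).prod := by
      rw [Multiset.prod_map_mul, Multiset.map_const', Multiset.prod_replicate]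
    unfold cf
    rw [map_mul, map_mul, hmap, hmap]
    rw [hprod] at hle
    set M : ℝ := ((wr P Q).roots.map fun c =>
          ν ((-1) ^ (d ^ i) * (gp d P Q i t').eval c / P.leadingCoeff ^ geom d i)).prod with hM
    have hM0 : 0 ≤ M := Multiset.prod_nonneg fun x hx => by
      obtain ⟨c, -, rfl⟩ := Multiset.mem_map.1 hx
      exact hν _
    have h4 : B ^ (wr P Q).roots.card ≤ B ^ (2 * d - 2) := pow_le_pow_right₀ hB hcard
    have h5 := hν ((wr P Q).leadingCoeff ^ d ^ i)
    calc _ ≤ ν ((wr P Q).leadingCoeff ^ d ^ i) * (B ^ (wr P Q).roots.card * M) :=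
          mul_le_mul_of_nonneg_left hle h5
      _ ≤ ν ((wr P Q).leadingCoeff ^ d ^ i) * (B ^ (2 * d - 2) * M) := by gcongr
      _ = _ := by ring
  -- the products over the poles
  have hcq : ∀ i, cf d P Q (i + 1) t Q = cf d P Q (i + 1) t' Q := by
    intro i
    unfold cf
    congr 2
    refine Multiset.map_congr rfl fun c hc => ?_
    have h1 := qn_pole hN hEVAL ((mem_roots hN.Q0).1 hc) i
    rw [gp_eval, gp_eval, h1, mul_zero, mul_zero]
  unfold en
  rw [map_prod, map_prod]
  have hterm : ∀ i ∈ Finset.range n, ν ((cf d P Q (i + 1) t (wr P Q) / cf d P Q (i + 1) t Q ^ 2) ^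
      d ^ (n - 1 - i)) ≤ ν ((cf d P Q (i + 1) t' (wr P Q) / cf d P Q (i + 1) t' Q ^ 2) ^
      d ^ (n - 1 - i)) * B ^ ((2 * d - 2) * d ^ (n - 1 - i)) := by
    intro i _
    rw [map_pow, map_pow, map_div₀, map_div₀, hcq i, pow_mul, ← mul_pow]
    have h1 := hν (cf d P Q (i + 1) t' Q ^ 2)
    refine pow_le_pow_left₀ (div_nonneg (hν _) h1) ?_ _
    calc ν (cf d P Q (i + 1) t (wr P Q)) / ν (cf d P Q (i + 1) t' Q ^ 2)
        ≤ (B ^ (2 * d - 2) * ν (cf d P Q (i + 1) t' (wr P Q))) / ν (cf d P Q (i + 1) t' Q ^ 2) :=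
          div_le_div_of_nonneg_right (hcf (i + 1)) h1
      _ = _ := by ring
  refine (Finset.prod_le_prod (fun i _ => hν _) hterm).trans ?_
  rw [Finset.prod_mul_distrib, Finset.prod_pow_eq_pow_sum, ← Finset.mul_sum]
  refine mul_le_mul_of_nonneg_left (pow_le_pow_right₀ hB (expo d n hd)) ?_
  exact Finset.prod_nonneg fun i _ => hν _

end Pool.Agent.H549.PCF
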